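import Mathlib
import Pool.Agent.Results.MP_fe892a_gt.ClosedCounterexample

/-!
# The quotient hyperspace `HS(p,X)` need not be aposyndetic (MP_53bf97_gt, Q1)

If `HS(p,X)` is aposyndetic at the class of `{a}` with respect to the point `C^X_p`, then `X` is
aposyndetic at `a` with respect to `p`. For the dyadic solenoid `X` this fails for all `a ≠ p`.
-/

open Set Topology TopologicalSpace

namespace Pool.Agent.Results.MP_53bf97_gt.NotAposyndetic

/-- The hyperspace `C(X)` of all nonempty closed connected subsets of the (compact) space `X`, as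
a subspace of the space of nonempty compact subsets (Hausdorff metric, or Vietoris topology). -/
abbrev CX (X : Type*) [TopologicalSpace X] : Type _ :=
  {K : NonemptyCompacts X // IsConnected (K : Set X)}

/-- The equivalence relation on `C(X)` that identifies all elements of
`C(p,X) = {A ∈ C(X) : p ∈ A}` with each other. -/
def collapse (X : Type*) [TopologicalSpace X] (p : X) : Setoid (CX X) where
  r A B := A = B ∨ (p ∈ (A.1 : Set X) ∧ p ∈ (B.1 : Set X))
  iseqv :=
    { refl := fun _ => Or.inl rfl
      symm := fun h => h.elim (fun h => Or.inl h.symm) (fun h => Or.inr ⟨h.2, h.1⟩)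
      trans := by
        rintro A B C (rfl | h) (rfl | h')
        · exact Or.inl rfl
        · exact Or.inr h'
        · exact Or.inr h
        · exact Or.inr ⟨h.1, h'.2⟩ }

/-- The quotient space `HS(p,X) = C(X)/C(p,X)`. -/
def HS (X : Type*) [TopologicalSpace X] (p : X) : Type _ := Quotient (collapse X p)

instance (X : Type*) [TopologicalSpace X] (p : X) : TopologicalSpace (HS X p) :=
  inferInstanceAs (TopologicalSpace (Quotient (collapse X p)))

/-- `Y` is aposyndetic at `x` with respect to `y`: some closed connected set `M` contains `x` in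
its interior and does not contain `y`. -/
def AposyndeticAt {Y : Type*} [TopologicalSpace Y] (x y : Y) : Prop :=
  ∃ M : Set Y, IsClosed M ∧ IsConnected M ∧ x ∈ interior M ∧ y ∉ M

/-- `Y` is aposyndetic. -/
def Aposyndetic (Y : Type*) [TopologicalSpace Y] : Prop :=
  ∀ x y : Y, x ≠ y → AposyndeticAt x y

section general

variable {X : Type*} [TopologicalSpace X]

/-- the quotient map `C(X) → HS(p,X)` -/
def π (p : X) : CX X → HS X p := Quotient.mk (collapse X p)

theorem isQuotientMap_π (p : X) : IsQuotientMap (π p) := isQuotientMap_quotient_mk'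

theorem π_eq (p : X) (A B : CX X) :
    π p A = π p B ↔ (A = B ∨ (p ∈ (A.1 : Set X) ∧ p ∈ (B.1 : Set X))) :=
  Quotient.eq (r := collapse X p)

/-- the singleton `{a}` as an element of `C(X)` -/
def sing (a : X) : CX X := ⟨{a}, by
  rw [NonemptyCompacts.coe_singleton]; exact isConnected_singleton⟩

theorem continuous_sing : Continuous (sing : X → CX X) :=
  NonemptyCompacts.isEmbedding_singleton.continuous.subtype_mk _

theorem isClosed_preconnected [T2Space X] :
    IsClosed {K : NonemptyCompacts X | IsPreconnected (K : Set X)} := by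
  rw [← isOpen_compl_iff, isOpen_iff_forall_mem_open]
  intro K hK
  have hK' : ¬ IsPreconnected (K : Set X) := hK
  rw [isPreconnected_closed_iff] at hK'
  push Not at hK'
  obtain ⟨F, G, hF, hG, hFG, hKF, hKG, hKFG⟩ := hK'
  have hFc : IsCompact ((K : Set X) ∩ F) := K.isCompact.inter_right hF
  have hGc : IsCompact ((K : Set X) ∩ G) := K.isCompact.inter_right hG
  have hd : Disjoint ((K : Set X) ∩ F) ((K : Set X) ∩ G) := by
    rw [disjoint_left]
    rintro x ⟨hx1, hx2⟩ ⟨-, hx3⟩
    have : x ∈ (K : Set X) ∩ (F ∩ G) := ⟨hx1, hx2, hx3⟩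
    rw [hKFG] at this
    exact this
  obtain ⟨U, V, hU, hV, hFU, hGV, hUV⟩ := SeparatedNhds.of_isCompact_isCompact hFc hGc hd
  refine ⟨{L : NonemptyCompacts X | (L : Set X) ⊆ U ∪ V} ∩
    ({L : NonemptyCompacts X | ((L : Set X) ∩ U).Nonempty} ∩
      {L : NonemptyCompacts X | ((L : Set X) ∩ V).Nonempty}), ?_, ?_, ?_⟩
  · rintro L ⟨h1, h2, h3⟩ hL
    obtain ⟨x, -, hx⟩ := hL U V hU hV h1 h2 h3
    exact disjoint_left.1 hUV hx.1 hx.2
  · exact (NonemptyCompacts.isOpen_subsets_of_isOpen (hU.union hV)).inter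
      ((NonemptyCompacts.isOpen_inter_nonempty_of_isOpen hU).inter
        (NonemptyCompacts.isOpen_inter_nonempty_of_isOpen hV))
  · refine ⟨?_, hKF.mono (subset_inter inter_subset_left hFU),
      hKG.mono (subset_inter inter_subset_left hGV)⟩
    intro x hx
    rcases hFG hx with h | h
    · exact Or.inl (hFU ⟨hx, h⟩)
    · exact Or.inr (hGV ⟨hx, h⟩)

instance [CompactSpace X] [T2Space X] : CompactSpace (CX X) := by
  have h : {K : NonemptyCompacts X | IsConnected (K : Set X)} =
      {K : NonemptyCompacts X | IsPreconnected (K : Set X)} := by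
    ext K
    exact ⟨fun h => h.isPreconnected, fun h => ⟨K.nonempty, h⟩⟩
  have hc : IsCompact {K : NonemptyCompacts X | IsConnected (K : Set X)} := by
    rw [h]; exact isClosed_preconnected.isCompact
  exact isCompact_iff_compactSpace.1 hc

/-- a closed connected set missing the point `C^X_p` has a connected preimage -/
theorem preconnected_preimage {p : X} {M : Set (HS X p)} (hMc : IsClosed M)
    (hM : IsPreconnected M) (hp : ∀ A : CX X, p ∈ (A.1 : Set X) → π p A ∉ M) :
    IsPreconnected (π p ⁻¹' M) := by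
  have hq := isQuotientMap_π p
  have hsat : ∀ F : Set (CX X), IsClosed F → IsClosed (π p '' (π p ⁻¹' M ∩ F)) := by
    intro F hF
    rw [← hq.isClosed_preimage]
    have : π p ⁻¹' (π p '' (π p ⁻¹' M ∩ F)) = π p ⁻¹' M ∩ F := by
      apply Subset.antisymm _ (subset_preimage_image _ _)
      rintro A ⟨B, ⟨hBM, hBF⟩, hBA⟩
      rcases (π_eq p B A).1 hBA with rfl | ⟨h, -⟩
      · exact ⟨hBM, hBF⟩
      · exact absurd hBM (hp B h)
    rw [this]
    exact (hMc.preimage hq.continuous).inter hF
  rw [isPreconnected_closed_iff] at hM ⊢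
  intro F G hF hG hFG hMF hMG
  obtain ⟨A, hA, hAF⟩ := hMF
  obtain ⟨B, hB, hBG⟩ := hMG
  obtain ⟨y, hyM, ⟨C, ⟨hC1, hC2⟩, hCy⟩, ⟨D, ⟨hD1, hD2⟩, hDy⟩⟩ :=
    hM _ _ (hsat F hF) (hsat G hG) (by
      intro y hy
      obtain ⟨C, rfl⟩ := hq.surjective y
      rcases hFG hy with h | h
      · exact Or.inl ⟨C, ⟨hy, h⟩, rfl⟩
      · exact Or.inr ⟨C, ⟨hy, h⟩, rfl⟩)
      ⟨π p A, hA, A, ⟨hA, hAF⟩, rfl⟩ ⟨π p B, hB, B, ⟨hB, hBG⟩, rfl⟩
  rcases (π_eq p C D).1 (hCy.trans hDy.symm) with rfl | ⟨h, -⟩
  · exact ⟨C, hC1, hC2, hD2⟩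
  · exact absurd hC1 (hp C h)

attribute [local instance] TopologicalSpace.vietoris in
theorem preconnected_union {S : Set (NonemptyCompacts X)} (hS : IsPreconnected S)
    (h : ∃ K ∈ S, IsPreconnected (K : Set X)) : IsPreconnected (⋃ K ∈ S, (K : Set X)) :=
  vietoris.isPreconnected_biUnion hS NonemptyCompacts.continuous_coe.continuousOn h

/-- **Mechanism.** If `HS(p,X)` is aposyndetic at the class of `{a}` with respect to `C^X_p`, then
`X` is aposyndetic at `a` with respect to `p`. -/
theorem aposyndeticAt_of [CompactSpace X] [T2Space X] {p a : X}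
    (h : AposyndeticAt (π p (sing a)) (π p (sing p))) : AposyndeticAt a p := by
  obtain ⟨M, hMc, hM, haM, hpM⟩ := h
  have hq := isQuotientMap_π p
  have hsingp : p ∈ ((sing p).1 : Set X) := by
    show p ∈ (({p} : NonemptyCompacts X) : Set X)
    rw [NonemptyCompacts.coe_singleton]; rfl
  have hp : ∀ A : CX X, p ∈ (A.1 : Set X) → π p A ∉ M := by
    intro A hA hAM
    apply hpM
    rw [(π_eq p (sing p) A).2 (Or.inr ⟨hsingp, hA⟩)]
    exact hAM
  have hpre := preconnected_preimage hMc hM.isPreconnected hp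
  set S : Set (NonemptyCompacts X) := Subtype.val '' (π p ⁻¹' M) with hS
  have hScomp : IsCompact S :=
    (hMc.preimage hq.continuous).isCompact.image continuous_subtype_val
  have hSpre : IsPreconnected S := hpre.image _ continuous_subtype_val.continuousOn
  set U : Set X := ⋃ K ∈ S, (K : Set X) with hU
  have haO : sing a ∈ π p ⁻¹' interior M := haM
  have hsub : sing ⁻¹' (π p ⁻¹' interior M) ⊆ U := by
    intro x hx
    have hx' : π p (sing x) ∈ M := interior_subset hx
    refine mem_biUnion (x := (sing x).1) ⟨sing x, hx', rfl⟩ ?_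
    show x ∈ (({x} : NonemptyCompacts X) : Set X)
    rw [NonemptyCompacts.coe_singleton]; rfl
  have hopen : IsOpen (sing ⁻¹' (π p ⁻¹' interior M)) :=
    (isOpen_interior.preimage hq.continuous).preimage continuous_sing
  have haU : a ∈ interior U := interior_maximal hsub hopen haO
  refine ⟨U, (NonemptyCompacts.isCompact_biUnion_coe_of_isCompact hScomp).isClosed,
    ⟨⟨a, interior_subset haU⟩, ?_⟩, haU, ?_⟩
  · have haM' : π p (sing a) ∈ M := interior_subset haM
    exact preconnected_union hSpre ⟨(sing a).1, ⟨sing a, haM', rfl⟩,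
      (sing a).2.isPreconnected⟩
  · intro hpU
    obtain ⟨K, ⟨A, hA, rfl⟩, hpK⟩ := mem_iUnion₂.1 hpU
    exact hp A hpK hA

end general

open Pool.Agent.Results.MP_fe892a_gt.ClosedCounterexample

/-- **Negative answer to Q1 of MP_53bf97_gt.** There is a continuum `X` (nondegenerate compact
connected metric space) such that for every point `p` of `X` the continuum `HS(p,X)` is not
aposyndetic. -/
theorem result : ∃ (X : Type) (_ : MetricSpace X), CompactSpace X ∧ ConnectedSpace X ∧
    Nontrivial X ∧ ∀ p : X, ¬ Aposyndetic (HS X p) := by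
  letI : MetrizableSpace (Sol 2) := Sol.metrizable 2
  letI : MetricSpace (Sol 2) := metrizableSpaceMetric (Sol 2)
  have hconn : ConnectedSpace (Sol 2) := Sol.connectedSpace two_ne_zero
  have hnt : Nontrivial (Sol 2) := Sol.nontrivial two_ne_zero
  refine ⟨Sol 2, inferInstance, inferInstance, hconn, hnt, ?_⟩
  intro p hap
  obtain ⟨a, ha⟩ := exists_ne p
  have hne : π p (sing a) ≠ π p (sing p) := by
    intro h
    rcases (π_eq p _ _).1 h with h | ⟨h, -⟩
    · have h1 : ((sing a).1 : Set (Sol 2)) = ((sing p).1 : Set (Sol 2)) := by rw [h]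
      have h2 : (({a} : NonemptyCompacts (Sol 2)) : Set (Sol 2)) =
        (({p} : NonemptyCompacts (Sol 2)) : Set (Sol 2)) := h1
      rw [NonemptyCompacts.coe_singleton, NonemptyCompacts.coe_singleton] at h2
      exact ha (singleton_injective h2)
    · have h2 : p ∈ (({a} : NonemptyCompacts (Sol 2)) : Set (Sol 2)) := h
      rw [NonemptyCompacts.coe_singleton] at h2
      exact ha (mem_singleton_iff.1 h2).symm
  obtain ⟨U, hUc, hU, haU, hpU⟩ := aposyndeticAt_of (hap _ _ hne)
  have := Sol.eq_univ (p := 2) le_rfl hUc hU.isPreconnected ⟨a, haU⟩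
  rw [this] at hpU
  exact hpU trivial

end Pool.Agent.Results.MP_53bf97_gt.NotAposyndetic
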